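import Pool.Agent.Work.MP_adbfe6_an.Ext.Defs

/-!
# Skew products over systems with a local product structure

Base: a homeomorphism `T` of a compact space `X` which preserves a measure `m` and is hyperbolic
(for example every volume preserving Anosov diffeomorphism of class `C^2`): `X` is covered by
boxes `b i : P × Q → X`, the sets `b i (P × {u})` are plaques of stable manifolds, the sets
`b i ({s} × Q)` are plaques of unstable manifolds, and the charts are absolutely continuous.
Fibre: a compact metric space `N` on which a locally compact group `G` acts. The skew product is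
`skew T a (x, y) = (T x, a x • y)`.
-/

set_option autoImplicit false

open MeasureTheory Filter Topology Set

namespace Pool.Agent.Work.MP_adbfe6_an.An

open Pool.Agent.Work.MP_adbfe6_an.Ext

/-- the product of the values of `c` at the first `n` points of the orbit of `x` -/
def cprod {X : Type} (T : X → X) (c : X → ℝ) (n : ℕ) (x : X) : ℝ :=
  ∏ k ∈ Finset.range n, c (T^[k] x)

/-- asymptotic points -/
def Asym {M : Type} [MetricSpace M] (f : M → M) (p q : M) : Prop :=
  Tendsto (fun n => dist (f^[n] p) (f^[n] q)) atTop (𝓝 0)

/-- The charts `b i` of `X` are open embeddings of the product `P × Q`, they cover `X`, and a set is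
a null set for `m` if and only if it is a null set for the measure `p × q` in all charts. -/
structure Boxes {X P Q : Type} [TopologicalSpace X] [MeasurableSpace X] [TopologicalSpace P]
    [MeasurableSpace P] [TopologicalSpace Q] [MeasurableSpace Q] (m : Measure X) (p : Measure P)
    (q : Measure Q) (b : ℕ → P × Q → X) : Prop where
  emb : ∀ i, IsOpenEmbedding (b i)
  cover : ∀ x, ∃ i z, b i z = x
  null : ∀ i (Z : Set X), MeasurableSet Z →
    ((p.prod q) (b i ⁻¹' Z) = 0 ↔ m (Z ∩ range (b i)) = 0)

/-- The sets `b i (P × {u})` are plaques of stable manifolds: for the points `x`, `x'` of a plaque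
the distance of `T^n x` and `T^n x'` is at most a constant (which depends continuously on `x` and
`x'`) times `c (x) c (T x) ... c (T^(n-1) x)`, where `0 < c < 1`, and points whose forward orbits
are close to each other are in one plaque. -/
structure Plaques {X P Q : Type} [MetricSpace X] [TopologicalSpace P] [TopologicalSpace Q]
    (T : X → X) (c : X → ℝ) (b : ℕ → P × Q → X) : Prop where
  cont : Continuous c
  pos : ∀ x, 0 < c x
  lt : ∀ x, c x < 1
  rate : ∀ i, ∃ ρ : P × P × Q → ℝ, Continuous ρ ∧ ∀ (s s' : P) (u : Q) (n : ℕ),
    dist (T^[n] (b i (s, u))) (T^[n] (b i (s', u))) ≤ ρ (s, s', u) * cprod T c n (b i (s, u))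
  loc : ∃ ε : ℝ, 0 < ε ∧ ∀ x x', (∀ n, dist (T^[n] x) (T^[n] x') < ε) →
    ∃ (i : ℕ) (s s' : P) (u : Q), b i (s, u) = x ∧ b i (s', u) = x'

/-- the base: `T` preserves `m`, the boxes `b i` are a local product structure of stable plaques
(contracted by `T` with the rate `cs`) and unstable plaques (contracted by `T⁻¹` with the rate
`cu`) -/
structure HypBase {X P Q : Type} [MetricSpace X] [MeasurableSpace X] [TopologicalSpace P]
    [MeasurableSpace P] [TopologicalSpace Q] [MeasurableSpace Q] (m : Measure X) (p : Measure P)
    (q : Measure Q) (b : ℕ → P × Q → X) (T : X ≃ₜ X) (cs cu : X → ℝ) : Prop where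
  mp : MeasurePreserving T m m
  boxes : Boxes m p q b
  s : Plaques T cs b
  u : Plaques T.symm cu (fun i (z : Q × P) => b i z.swap)

section skewdefs

variable {X G : Type} [MetricSpace X] [Group G] (N : Type) [MetricSpace N] [MulAction G N]

/-- the fibre maps contract distances much less than `T` contracts the plaques -/
def Dominated (T : X → X) (a : X → G) (c : X → ℝ) : Prop :=
  ∃ C r : ℝ, 0 < r ∧ r < 1 ∧ ∀ (n : ℕ) (x : X) (y y' : N), cprod T c n x * dist y y' ≤
    C * r ^ n * dist ((skew T a)^[n] (x, y)).2 ((skew T a)^[n] (x, y')).2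

/-- `f = skew T a` is partially hyperbolic: `f` and `f⁻¹` are Lipschitz and the contraction of the
stable and unstable plaques dominates the fibres -/
structure PHyp (T : X ≃ₜ X) (a : X → G) (cs cu : X → ℝ) : Prop where
  lip : ∃ K, LipschitzWith K (skew (N := N) T a)
  lip' : ∃ K, LipschitzWith K (skew (N := N) T.symm (ainv T.symm a))
  s : Dominated N T a cs
  u : Dominated N T.symm (ainv T.symm a) cu

variable {N}

/-- `q` is in the strong stable leaf of `p`: the base points are asymptotic and the fibre
components of the orbits approach each other at least as fast as the product of the `c (T^k x)` -/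
def Leaf (T : X → X) (a : X → G) (c : X → ℝ) (p q : X × N) : Prop :=
  Asym T p.1 q.1 ∧ ∃ C : ℝ, ∀ n : ℕ,
    dist ((skew T a)^[n] p).2 ((skew T a)^[n] q).2 ≤ C * cprod T c n p.1

/-- essential accessibility: two measurable sets of positive measure are joined by an `su`-path -/
def EssAcc [MeasurableSpace X] [MeasurableSpace N] (T : X ≃ₜ X) (a : X → G) (cs cu : X → ℝ)
    (μ : Measure (X × N)) : Prop :=
  ∀ S S' : Set (X × N), MeasurableSet S → MeasurableSet S' → 0 < μ S → 0 < μ S' →
    ∃ p ∈ S, ∃ q ∈ S', Relation.ReflTransGen
      (fun p q => Leaf T a cs p q ∨ Leaf T.symm (ainv T.symm a) cu p q) p q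

end skewdefs

end Pool.Agent.Work.MP_adbfe6_an.An
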