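import Pool.Agent.Work.MP_adbfe6_an.Bd.B05

/-!
# Skew products over systems with a local product structure: the main theorem
-/

set_option autoImplicit false

namespace Pool.Agent.Work.MP_adbfe6_an.An

/-- the main theorem, see `StMain` -/
theorem main : StMain :=
  main_of pr_Fam (pr_HCt pr_HPt) (pr_LOf pr_HPt) (pr_LTo pr_HPt) pr_X0 pr_Cht pr_Cons pr_Conn
    pr_Spr (pr_Crit (pr_Mix pr_Sub (pr_Orth pr_CInv))) pr_Erg

end Pool.Agent.Work.MP_adbfe6_an.An
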